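import Mathlib

open CategoryTheory MonoidalCategory

namespace Pool.Agent.H71.PA

universe v u

/-- The tensor power `A ⊗ (A ⊗ (⋯ ⊗ 𝟙))` with `n` factors `A`. -/
@[reducible] def tpow {C : Type u} [Category.{v} C] [MonoidalCategory C] (A : C) : ℕ → C
  | 0 => 𝟙_ C
  | n + 1 => A ⊗ tpow A n

end Pool.Agent.H71.PA
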