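import Pool.Agent.H71.PA.Defs

open CategoryTheory MonoidalCategory

set_option linter.unusedSectionVars false

namespace Pool.Agent.H71.PA

universe w v u

section linear

variable {F : Type*} [Field F] {V V' : Type w} [AddCommGroup V] [Module F V] [AddCommGroup V']
  [Module F V']

theorem rank_add_of_orthogonal (p q : V →ₗ[F] V) (hp : p ∘ₗ p = p) (hq : q ∘ₗ q = q)
    (hpq : p ∘ₗ q = 0) (hqp : q ∘ₗ p = 0) :
    LinearMap.rank (p + q) = LinearMap.rank p + LinearMap.rank q := by
  have h1 : ∀ x, p (p x) = p x := fun x => LinearMap.congr_fun hp x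
  have h2 : ∀ x, q (q x) = q x := fun x => LinearMap.congr_fun hq x
  have h3 : ∀ x, p (q x) = 0 := fun x => LinearMap.congr_fun hpq x
  have h4 : ∀ x, q (p x) = 0 := fun x => LinearMap.congr_fun hqp x
  have hsup : LinearMap.range (p + q) = LinearMap.range p ⊔ LinearMap.range q := by
    apply le_antisymm
    · rintro _ ⟨x, rfl⟩
      exact Submodule.add_mem_sup ⟨x, rfl⟩ ⟨x, rfl⟩
    · rw [sup_le_iff]
      constructor
      · rintro _ ⟨x, rfl⟩
        exact ⟨p x, by simp [h1, h4]⟩
      · rintro _ ⟨x, rfl⟩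
        exact ⟨q x, by simp [h2, h3]⟩
  have hinf : LinearMap.range p ⊓ LinearMap.range q = ⊥ := by
    rw [eq_bot_iff]
    rintro x ⟨⟨y, hy⟩, ⟨z, hz⟩⟩
    rw [Submodule.mem_bot, ← hy, ← h1 y, hy, ← hz, h3]
  have h := Submodule.rank_sup_add_rank_inf_eq (LinearMap.range p) (LinearMap.range q)
  rw [hinf, rank_bot, add_zero, ← hsup] at h
  exact h

theorem rank_conj (p : V →ₗ[F] V) (q : V' →ₗ[F] V') (a : V →ₗ[F] V') (b : V' →ₗ[F] V)
    (hp : p ∘ₗ p = p) (hq : q ∘ₗ q = q) (hba : b ∘ₗ a = p) (hab : a ∘ₗ b = q) :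
    LinearMap.rank p = LinearMap.rank q := by
  apply le_antisymm
  · have h : p = b ∘ₗ (q ∘ₗ a) := by
      rw [← hab, LinearMap.comp_assoc, hba, ← LinearMap.comp_assoc, hba, hp]
    calc LinearMap.rank p = LinearMap.rank (b ∘ₗ (q ∘ₗ a)) := by rw [← h]
      _ ≤ LinearMap.rank (q ∘ₗ a) := LinearMap.rank_comp_le_right _ _
      _ ≤ LinearMap.rank q := LinearMap.rank_comp_le_left _ _
  · have h : q = a ∘ₗ (p ∘ₗ b) := by
      rw [← hba, LinearMap.comp_assoc, hab, ← LinearMap.comp_assoc, hab, hq]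
    calc LinearMap.rank q = LinearMap.rank (a ∘ₗ (p ∘ₗ b)) := by rw [← h]
      _ ≤ LinearMap.rank (p ∘ₗ b) := LinearMap.rank_comp_le_right _ _
      _ ≤ LinearMap.rank p := LinearMap.rank_comp_le_left _ _

end linear

section cat

variable {F : Type*} [Field F] {C : Type u} [Category.{v} C] [Preadditive C]
  [MonoidalCategory C] [MonoidalPreadditive C] (K : C ⥤ ModuleCat.{w} F) [K.Additive]

/-- the rank of an endomorphism in the representation `K` -/
noncomputable def rk {Y : C} (f : Y ⟶ Y) : Cardinal.{w} := LinearMap.rank (K.map f).hom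

theorem rk_add {Y : C} (f f' : Y ⟶ Y) (hf : f ≫ f = f) (hf' : f' ≫ f' = f') (h : f ≫ f' = 0)
    (h' : f' ≫ f = 0) : rk K (f + f') = rk K f + rk K f' := by
  have e : ∀ a b : Y ⟶ Y, (K.map a).hom ∘ₗ (K.map b).hom = (K.map (b ≫ a)).hom := by
    intro a b
    rw [K.map_comp]
    rfl
  unfold rk
  rw [K.map_add, ModuleCat.hom_add]
  apply rank_add_of_orthogonal
  · rw [e, hf]
  · rw [e, hf']
  · rw [e, h', K.map_zero]; rfl
  · rw [e, h, K.map_zero]; rfl

theorem rk_conj {Y Y' : C} (f : Y ⟶ Y) (f' : Y' ⟶ Y') (a : Y ⟶ Y') (b : Y' ⟶ Y)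
    (hf : f ≫ f = f) (hf' : f' ≫ f' = f') (hab : a ≫ b = f) (hba : b ≫ a = f') :
    rk K f = rk K f' := by
  unfold rk
  apply rank_conj (K.map f).hom (K.map f').hom (K.map a).hom (K.map b).hom
  · rw [← ModuleCat.hom_comp, ← K.map_comp, hf]
  · rw [← ModuleCat.hom_comp, ← K.map_comp, hf']
  · rw [← ModuleCat.hom_comp, ← K.map_comp, hab]
  · rw [← ModuleCat.hom_comp, ← K.map_comp, hba]

theorem rk_sum {Y : C} {ι : Type*} [DecidableEq ι] (s : Finset ι) (f₀ : Y ⟶ Y) (p : ι → (Y ⟶ Y))
    (h0 : f₀ ≫ f₀ = f₀) (h0p : ∀ j, f₀ ≫ p j = 0) (hp0 : ∀ j, p j ≫ f₀ = 0)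
    (hp : ∀ i j, p i ≫ p j = if i = j then p i else 0) :
    rk K (f₀ + ∑ j ∈ s, p j) = rk K f₀ + ∑ j ∈ s, rk K (p j) := by
  induction s using Finset.induction_on with
  | empty => simp
  | insert i s hi ih =>
    rw [Finset.sum_insert hi, Finset.sum_insert hi, add_comm (p i), ← add_assoc, rk_add, ih]
    · rw [add_assoc, add_comm (∑ j ∈ s, rk K (p j))]
    · rw [Preadditive.add_comp, Preadditive.comp_add, Preadditive.comp_add, h0,
        Preadditive.comp_sum, Preadditive.sum_comp, Preadditive.sum_comp]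
      simp only [h0p, hp0, Finset.sum_const_zero, add_zero, zero_add]
      congr 1
      refine Finset.sum_congr rfl fun j hj => ?_
      rw [Preadditive.comp_sum, Finset.sum_eq_single j]
      · rw [hp, if_pos rfl]
      · intro k _ hk
        rw [hp, if_neg (Ne.symm hk)]
      · intro h
        exact absurd hj h
    · rw [hp, if_pos rfl]
    · rw [Preadditive.add_comp, h0p, zero_add, Preadditive.sum_comp]
      refine Finset.sum_eq_zero fun j hj => ?_
      rw [hp, if_neg (by rintro rfl; exact hi hj)]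
    · rw [Preadditive.comp_add, hp0, zero_add, Preadditive.comp_sum]
      refine Finset.sum_eq_zero fun j hj => ?_
      rw [hp, if_neg (by rintro rfl; exact hi hj)]

variable {A : C} {ρ : ℕ} (b : Fin ρ → (𝟙_ C ⟶ A)) (g : Fin ρ → (A ⟶ 𝟙_ C))

/-- the complementary idempotent -/
def compl : A ⟶ A := 𝟙 A - ∑ j, g j ≫ b j

/-- the sequence of multiplicities -/
noncomputable def wseq : ℕ → ∀ {Y : C}, (Y ⟶ Y) → Cardinal.{w}
  | 0, _, f => rk K (f ▷ 𝟙_ C)
  | n + 1, _, f => wseq n (f ⊗ₘ compl b g)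

variable (hbg : ∀ i j, b i ≫ g j = if i = j then 𝟙 (𝟙_ C) else 0)

include hbg

theorem b_compl (i : Fin ρ) : b i ≫ compl b g = 0 := by
  unfold compl
  rw [Preadditive.comp_sub, Category.comp_id, Preadditive.comp_sum, Finset.sum_eq_single i]
  · rw [← Category.assoc, hbg, if_pos rfl, Category.id_comp, sub_self]
  · intro j _ hj
    rw [← Category.assoc, hbg, if_neg (Ne.symm hj), Limits.zero_comp]
  · intro h
    exact absurd (Finset.mem_univ i) h

theorem compl_g (i : Fin ρ) : compl b g ≫ g i = 0 := by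
  unfold compl
  rw [Preadditive.sub_comp, Category.id_comp, Preadditive.sum_comp, Finset.sum_eq_single i]
  · rw [Category.assoc, hbg, if_pos rfl, Category.comp_id, sub_self]
  · intro j _ hj
    rw [Category.assoc, hbg, if_neg hj, Limits.comp_zero]
  · intro h
    exact absurd (Finset.mem_univ i) h

theorem compl_idem : compl b g ≫ compl b g = compl b g := by
  nth_rw 2 [compl]
  rw [Preadditive.comp_sub, Category.comp_id, Preadditive.comp_sum, sub_eq_self]
  refine Finset.sum_eq_zero fun j _ => ?_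
  rw [← Category.assoc, compl_g b g hbg, Limits.zero_comp]

theorem rk_step {Y : C} (f : Y ⟶ Y) (hf : f ≫ f = f) (T : C) :
    rk K (f ▷ (A ⊗ T)) = rk K ((f ⊗ₘ compl b g) ▷ T) + ρ * rk K (f ▷ T) := by
  classical
  have hcc := compl_idem b g hbg
  have h1 : rk K (f ▷ (A ⊗ T)) = rk K ((f ▷ A) ▷ T) := by
    apply rk_conj K _ _ ((α_ Y A T).inv ≫ (f ▷ A) ▷ T) ((α_ Y A T).hom)
    · rw [← comp_whiskerRight, hf]
    · rw [← comp_whiskerRight, ← comp_whiskerRight, hf]
    · simp
    · simp
  have h2 : (f ▷ A) ▷ T = (f ⊗ₘ compl b g) ▷ T + ∑ j, (f ⊗ₘ (g j ≫ b j)) ▷ T := by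
    rw [← sum_whiskerRight, ← MonoidalPreadditive.add_whiskerRight]
    congr 1
    rw [← tensor_sum, ← MonoidalPreadditive.tensor_add]
    unfold compl
    rw [sub_add_cancel, MonoidalCategory.tensorHom_id]
  rw [h1, h2, rk_sum]
  · congr 1
    rw [Finset.sum_congr rfl (g := fun _ => rk K (f ▷ T))]
    · simp
    · intro j _
      apply rk_conj K _ _ (((f ⊗ₘ g j) ≫ (ρ_ Y).hom) ▷ T) (((ρ_ Y).inv ≫ (f ⊗ₘ b j)) ▷ T)
      · rw [← comp_whiskerRight, MonoidalCategory.tensorHom_comp_tensorHom, hf, Category.assoc,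
          ← Category.assoc (b j), hbg, if_pos rfl, Category.id_comp]
      · rw [← comp_whiskerRight, hf]
      · rw [← comp_whiskerRight]
        simp only [Category.assoc, Iso.hom_inv_id_assoc]
        rw [MonoidalCategory.tensorHom_comp_tensorHom, hf]
      · rw [← comp_whiskerRight]
        congr 1
        simp only [Category.assoc]
        rw [MonoidalCategory.tensorHom_comp_tensorHom_assoc, hf, hbg, if_pos rfl]
        simp
  · rw [← comp_whiskerRight, MonoidalCategory.tensorHom_comp_tensorHom, hf, hcc]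
  · intro j
    rw [← comp_whiskerRight, MonoidalCategory.tensorHom_comp_tensorHom, ← Category.assoc,
      compl_g b g hbg, Limits.zero_comp, MonoidalPreadditive.tensor_zero,
      MonoidalPreadditive.zero_whiskerRight]
  · intro j
    rw [← comp_whiskerRight, MonoidalCategory.tensorHom_comp_tensorHom, Category.assoc,
      b_compl b g hbg, Limits.comp_zero, MonoidalPreadditive.tensor_zero,
      MonoidalPreadditive.zero_whiskerRight]
  · intro i j
    rw [← comp_whiskerRight, MonoidalCategory.tensorHom_comp_tensorHom, hf, Category.assoc,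
      ← Category.assoc (b i), hbg]
    split_ifs with h
    · subst h
      rw [Category.id_comp]
    · rw [Limits.zero_comp, Limits.comp_zero, MonoidalPreadditive.tensor_zero,
        MonoidalPreadditive.zero_whiskerRight]

theorem rk_formula (n : ℕ) : ∀ {Y : C} (f : Y ⟶ Y), f ≫ f = f →
    rk K (f ▷ tpow A n) =
      ∑ i ∈ Finset.range (n + 1), ((n.choose i * ρ ^ (n - i) : ℕ) : Cardinal) * wseq K b g i f := by
  induction n with
  | zero =>
    intro Y f _
    simp [wseq]
  | succ n ih =>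
    intro Y f hf
    have hf2 : (f ⊗ₘ compl b g) ≫ (f ⊗ₘ compl b g) = f ⊗ₘ compl b g := by
      rw [MonoidalCategory.tensorHom_comp_tensorHom, hf, compl_idem b g hbg]
    change rk K (f ▷ (A ⊗ tpow A n)) = _
    rw [rk_step K b g hbg f hf, ih _ hf2, ih f hf]
    set d : ℕ → Cardinal := fun i => wseq K b g i f with hd
    change ∑ i ∈ Finset.range (n + 1), ((n.choose i * ρ ^ (n - i) : ℕ) : Cardinal) * d (i + 1) +
      (ρ : Cardinal) * ∑ i ∈ Finset.range (n + 1), ((n.choose i * ρ ^ (n - i) : ℕ) : Cardinal) * d i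
      = ∑ i ∈ Finset.range (n + 1 + 1),
        (((n + 1).choose i * ρ ^ (n + 1 - i) : ℕ) : Cardinal) * d i
    rw [Finset.sum_range_succ'
      (fun i => (((n + 1).choose i * ρ ^ (n + 1 - i) : ℕ) : Cardinal) * d i)]
    have h1 : ∀ i ∈ Finset.range (n + 1),
        (((n + 1).choose (i + 1) * ρ ^ (n + 1 - (i + 1)) : ℕ) : Cardinal) * d (i + 1)
        = ((n.choose i * ρ ^ (n - i) : ℕ) : Cardinal) * d (i + 1) +
          ((n.choose (i + 1) * ρ ^ (n - i) : ℕ) : Cardinal) * d (i + 1) := by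
      intro i _
      rw [Nat.choose_succ_succ, Nat.add_sub_add_right]
      push_cast
      ring
    rw [Finset.sum_congr rfl h1, Finset.sum_add_distrib, add_assoc]
    congr 1
    rw [Finset.mul_sum, Finset.sum_range_succ'
      (fun i => (ρ : Cardinal) * (((n.choose i * ρ ^ (n - i) : ℕ) : Cardinal) * d i)),
      Finset.sum_range_succ (fun i => ((n.choose (i + 1) * ρ ^ (n - i) : ℕ) : Cardinal) * d (i + 1))]
    have h2 : ∀ i ∈ Finset.range n,
        (ρ : Cardinal) * (((n.choose (i + 1) * ρ ^ (n - (i + 1)) : ℕ) : Cardinal) * d (i + 1)) =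
        ((n.choose (i + 1) * ρ ^ (n - i) : ℕ) : Cardinal) * d (i + 1) := by
      intro i hi
      have h3 : n - i = (n - (i + 1)) + 1 := by
        have := Finset.mem_range.1 hi
        omega
      rw [h3, pow_succ]
      push_cast
      ring
    rw [Finset.sum_congr rfl h2]
    simp only [Nat.choose_succ_self, zero_mul, Nat.cast_zero, add_zero, Nat.choose_zero_right,
      Nat.sub_zero, one_mul, pow_succ]
    push_cast
    ring

end cat

end Pool.Agent.H71.PA
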